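import Pool.Agent.N226.LL.Main
import Pool.Agent.N226.LL.Sparse

set_option autoImplicit false

/-!
# Linear arboricity of locally sparse graphs and of almost all lifts of a graph, even degrees

`H931R3.LA.la G` is the linear arboricity (the same expression as in the frozen statement S07085).
-/

namespace Pool.Agent.Results.MP_0a041d_co.AlmostAllLifts

open SimpleGraph H931R3.LA

/-- The `N`-lift, given by the permutations `π e` of `Fin N`, of the multigraph with vertex set `V`,
edge set `E` and the edge `e` joining `src e` and `tgt e`: the vertices are the pairs `(v, x)`, and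
for every edge `e` and every `x` the vertices `(src e, x)` and `(tgt e, π e x)` are joined (loops and
multiple edges of the lift are ignored). -/
def Lift {V E : Type} {N : ℕ} (src tgt : E → V) (π : E → Equiv.Perm (Fin N)) :
    SimpleGraph (V × Fin N) where
  Adj p q := p ≠ q ∧ ∃ e, (src e = p.1 ∧ tgt e = q.1 ∧ π e p.2 = q.2) ∨
    (src e = q.1 ∧ tgt e = p.1 ∧ π e q.2 = p.2)
  symm.symm := fun _ _ h => ⟨h.1.symm, h.2.imp fun _ he => he.symm⟩
  loopless.irrefl := fun _ h => h.1 rfl

/-- **Locally sparse graphs and almost all lifts.**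

(a) Let `G` be a finite graph of maximum degree at most `2 k`, `k ≥ 1`, in which every set `S` of at
most `12 k` vertices spans at most `|S|` edges (at most `2 |S|` ordered pairs of adjacent vertices).
Then `la G ≤ k + 1`, and `la G = k + 1 = ⌈(2 k + 1) / 2⌉` if `G` is `2 k`-regular.
(b) Let `k ≥ 1` and let `(V, E, src, tgt)` be a finite multigraph (loops and multiple edges allowed)
of maximum degree at most `2 k`, a loop being counted twice.  Among all `(N!) ^ |E|` of its
`N`-lifts, all but the proportion `72 k ^ 4 |V| / N` have linear arboricity at most `k + 1`, and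
linear arboricity exactly `k + 1 = ⌈(2 k + 1) / 2⌉` if they are `2 k`-regular. -/
theorem result :
    (∀ (V : Type) [Finite V] (G : SimpleGraph V) (k : ℕ), 0 < k →
      (∀ v, (G.neighborSet v).ncard ≤ 2 * k) →
      (∀ S : Set V, S.ncard ≤ 12 * k →
        {p : V × V | p.1 ∈ S ∧ p.2 ∈ S ∧ G.Adj p.1 p.2}.ncard ≤ 2 * S.ncard) →
      la G ≤ k + 1 ∧
      (Nonempty V → (∀ v, (G.neighborSet v).ncard = 2 * k) → la G = k + 1)) ∧
    (∀ (V E : Type) [Finite V] [Finite E] (src tgt : E → V) (k N : ℕ), 0 < k → 0 < N →
      (∀ v, {e | src e = v}.ncard + {e | tgt e = v}.ncard ≤ 2 * k) →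
      ({π : E → Equiv.Perm (Fin N) | ¬ (la (Lift src tgt π) ≤ k + 1 ∧
        (Nonempty V → (∀ x, ((Lift src tgt π).neighborSet x).ncard = 2 * k) →
          la (Lift src tgt π) = k + 1))}.ncard : ℝ) ≤
        72 * (k : ℝ) ^ 4 * Nat.card V / N * Nat.card (E → Equiv.Perm (Fin N))) := by
  classical
  refine ⟨?_, ?_⟩
  · intro V _ G k hk hdeg hsp
    have h := Pool.Agent.N226.LL.cov_sparse G hk hdeg hsp
    refine ⟨la_le h, fun hV hreg => ?_⟩
    have h1 : k + 1 = (2 * k + 2) / 2 := by omega
    rw [h1] at h ⊢
    exact Pool.Agent.W111.LAR.la_eq_of_cov (by omega) hreg h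
  · intro V E _ _ src tgt k N hk hN hdeg
    have := Fintype.ofFinite V
    have := Fintype.ofFinite E
    have hc := Pool.Agent.N226.LL.count src tgt k N hk (by
      intro v
      have := hdeg v
      rw [Set.ncard_eq_toFinset_card', Set.ncard_eq_toFinset_card', Set.toFinset_ofPred,
        Set.toFinset_ofPred] at this
      convert this)
    have hsub : {π : E → Equiv.Perm (Fin N) | ¬ (la (Lift src tgt π) ≤ k + 1 ∧
        (Nonempty V → (∀ x, ((Lift src tgt π).neighborSet x).ncard = 2 * k) →
          la (Lift src tgt π) = k + 1))} ⊆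
        {π | ¬ Cov (Pool.Agent.N226.LL.lift src tgt π) (k + 1)} := by
      intro π hπ hcov
      apply hπ
      have hcov' : Cov (Lift src tgt π) (k + 1) := hcov
      refine ⟨la_le hcov', fun hV hreg => ?_⟩
      have : Nonempty (V × Fin N) := ⟨(hV.some, ⟨0, hN⟩)⟩
      have h1 : k + 1 = (2 * k + 2) / 2 := by omega
      rw [h1] at hcov' ⊢
      exact Pool.Agent.W111.LAR.la_eq_of_cov (by omega) hreg hcov'
    have h1 := Set.ncard_le_ncard hsub (Set.toFinite _)
    rw [Set.ncard_eq_toFinset_card' {π | ¬ Cov (Pool.Agent.N226.LL.lift src tgt π) (k + 1)},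
      Set.toFinset_ofPred] at h1
    have h2 : {π : E → Equiv.Perm (Fin N) | ¬ (la (Lift src tgt π) ≤ k + 1 ∧
        (Nonempty V → (∀ x, ((Lift src tgt π).neighborSet x).ncard = 2 * k) →
          la (Lift src tgt π) = k + 1))}.ncard * N ≤
        72 * k ^ 4 * Nat.card V * Nat.card (E → Equiv.Perm (Fin N)) := by
      rw [Nat.card_eq_fintype_card, Nat.card_eq_fintype_card]
      refine (Nat.mul_le_mul_right N h1).trans ?_
      convert hc
    have hN' : (0 : ℝ) < N := by exact_mod_cast hN
    rw [div_mul_eq_mul_div, le_div_iff₀ hN']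
    exact_mod_cast h2

end Pool.Agent.Results.MP_0a041d_co.AlmostAllLifts
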